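import Mathlib
import Pool.Agent.X142.PAMDisc
import Pool.Agent.X142.PAMSeq

/-!
The solution of the parabolic Anderson model on `ℤ` with a bounded positive potential is eventually
strictly increasing in time at every site.
-/

open Finset MeasureTheory

namespace Pool.Agent.Results.MP_360c0a_pr.EventuallyIncreasing

open X142.PAM

/-- The discrete Laplacian `(f(x+1) + f(x-1) - 2 f(x)) / 2`. -/
noncomputable def lap (f : ℤ → ℝ) (x : ℤ) : ℝ := 1 / 2 * (f (x + 1) + f (x - 1) - 2 * f x)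

/-- `u` is the solution of the parabolic Anderson model `∂ₜ u = Δ u + ξ u`, `u(0,·) = u₀`, on
`[0,∞) × ℤ`, bounded on `[0,b] × ℤ` for every `b`. -/
structure IsPAMSolution (ξ u₀ : ℤ → ℝ) (u : ℝ → ℤ → ℝ) : Prop where
  init : ∀ x, u 0 x = u₀ x
  deriv : ∀ t, 0 ≤ t → ∀ x,
    HasDerivWithinAt (fun s => u s x) (lap (u t) x + ξ x * u t x) (Set.Ici 0) t
  bounded : ∀ b : ℝ, ∃ M : ℝ, ∀ t, 0 ≤ t → t ≤ b → ∀ x, |u t x| ≤ M

section series

variable {ξ u₀ : ℤ → ℝ} {u : ℝ → ℤ → ℝ}

/-- The partial sums of the series for `e^{2t} u(t,x)`. -/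
noncomputable def psum (ξ u₀ : ℤ → ℝ) (n : ℕ) (t : ℝ) (x : ℤ) : ℝ :=
  ∑ k ∈ range n, (2 * t) ^ k / (k.factorial : ℝ) * (T ξ Set.univ ^ k) u₀ x

lemma psum_zero_time (n : ℕ) (x : ℤ) : psum ξ u₀ (n + 1) 0 x = u₀ x := by
  unfold psum
  rw [sum_range_succ']
  simp

lemma T_psum (n : ℕ) (t : ℝ) (x : ℤ) : T ξ Set.univ (psum ξ u₀ n t) x =
    ∑ k ∈ range n, (2 * t) ^ k / (k.factorial : ℝ) * (T ξ Set.univ ^ (k + 1)) u₀ x := by
  have h : psum ξ u₀ n t =
      ∑ k ∈ range n, ((2 * t) ^ k / (k.factorial : ℝ)) • (T ξ Set.univ ^ k) u₀ := by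
    funext x
    simp [psum, Finset.sum_apply]
  rw [h, map_sum, Finset.sum_apply]
  apply sum_congr rfl
  intro k _
  rw [map_smul, Tpow_succ]
  rfl

lemma hasDerivAt_psum (n : ℕ) (t : ℝ) (x : ℤ) :
    HasDerivAt (fun s => psum ξ u₀ (n + 1) s x) (2 * T ξ Set.univ (psum ξ u₀ n t) x) t := by
  rw [T_psum]
  have h1 : (fun s => psum ξ u₀ (n + 1) s x) = fun s =>
      ∑ k ∈ range n, (2 * s) ^ (k + 1) / ((k + 1).factorial : ℝ) *
        (T ξ Set.univ ^ (k + 1)) u₀ x + u₀ x := by
    funext s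
    unfold psum
    rw [sum_range_succ']
    simp
  rw [h1]
  have h2 : ∀ k ∈ range n, HasDerivAt (fun s : ℝ => (2 * s) ^ (k + 1) / ((k + 1).factorial : ℝ) *
      (T ξ Set.univ ^ (k + 1)) u₀ x)
      (2 * ((2 * t) ^ k / (k.factorial : ℝ) * (T ξ Set.univ ^ (k + 1)) u₀ x)) t := by
    intro k _
    have h3 : HasDerivAt (fun s : ℝ => (2 * s) ^ (k + 1)) (((k + 1 : ℕ) : ℝ) * (2 * t) ^ k * 2) t := by
      have h0 : HasDerivAt (fun s : ℝ => 2 * s) 2 t := by
        simpa using (hasDerivAt_id t).const_mul 2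
      have := h0.pow (k + 1)
      exact this.congr_deriv (by simp)
    have h4 := (h3.div_const ((k + 1).factorial : ℝ)).mul_const ((T ξ Set.univ ^ (k + 1)) u₀ x)
    refine h4.congr_deriv ?_
    rw [Nat.factorial_succ]
    push_cast
    have : (k.factorial : ℝ) ≠ 0 := by positivity
    have : ((k : ℝ) + 1) ≠ 0 := by positivity
    field_simp
  have h5 := (HasDerivAt.fun_sum h2).add_const (u₀ x)
  rw [Finset.mul_sum]
  exact h5

lemma abs_T_le {E A : ℝ} (hE : ∀ x, |ξ x| ≤ E) {f : ℤ → ℝ} (hf : ∀ x, |f x| ≤ A) (x : ℤ) :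
    |2 * T ξ Set.univ f x| ≤ (2 + E) * A := by
  have hA : 0 ≤ A := (abs_nonneg _).trans (hf x)
  rw [T_univ]
  have h1 : 2 * ((1 + ξ x) / 2 * f x + 1 / 4 * (f (x + 1) + f (x - 1))) =
      f x + ξ x * f x + 1 / 2 * f (x + 1) + 1 / 2 * f (x - 1) := by ring
  rw [h1]
  have h2 : |ξ x * f x| ≤ E * A := by
    rw [abs_mul]
    exact mul_le_mul (hE x) (hf x) (abs_nonneg _) ((abs_nonneg _).trans (hE x))
  have h3 := abs_le.mp (hf x)
  have h4 := abs_le.mp (hf (x + 1))
  have h5 := abs_le.mp (hf (x - 1))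
  have h6 := abs_le.mp h2
  rw [abs_le]
  constructor
  · nlinarith [h3.1, h4.1, h5.1, h6.1]
  · nlinarith [h3.2, h4.2, h5.2, h6.2]

lemma hasDerivWithinAt_w (h : IsPAMSolution ξ u₀ u) {t : ℝ} (ht : 0 ≤ t) (x : ℤ) :
    HasDerivWithinAt (fun s => Real.exp (2 * s) * u s x)
      (2 * T ξ Set.univ (fun y => Real.exp (2 * t) * u t y) x) (Set.Ici 0) t := by
  have h1 := h.deriv t ht x
  have h2 : HasDerivAt (fun s : ℝ => Real.exp (2 * s)) (Real.exp (2 * t) * 2) t := by
    have := ((hasDerivAt_id t).const_mul 2).exp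
    simpa using this
  have h3 := h2.hasDerivWithinAt.mul h1 (s := Set.Ici 0)
  refine h3.congr_deriv ?_
  rw [T_univ, lap]
  ring

/-- Error bound for the partial sums. -/
lemma error_bound (h : IsPAMSolution ξ u₀ u) {E M b : ℝ} (hE : ∀ x, |ξ x| ≤ E)
    (hM : ∀ t, 0 ≤ t → t ≤ b → ∀ x, |Real.exp (2 * t) * u t x| ≤ M) (n : ℕ) :
    ∀ t, 0 ≤ t → t ≤ b → ∀ x, |Real.exp (2 * t) * u t x - psum ξ u₀ n t x| ≤
      M * ((2 + E) * t) ^ n / (n.factorial : ℝ) := by
  have hE0 : 0 ≤ E := (abs_nonneg _).trans (hE 0)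
  induction n with
  | zero =>
    intro t ht htb x
    simpa [psum] using hM t ht htb x
  | succ n ih =>
    intro t ht htb x
    have hcont : ContinuousOn (fun s => Real.exp (2 * s) * u s x - psum ξ u₀ (n + 1) s x)
        (Set.Icc 0 b) := by
      intro s hs
      have h1 := (hasDerivWithinAt_w h hs.1 x).continuousWithinAt
      have h2 := (hasDerivAt_psum (ξ := ξ) (u₀ := u₀) n s x).continuousAt.continuousWithinAt
        (s := Set.Icc 0 b)
      exact (h1.mono (fun r hr => hr.1)).sub h2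
    have hder : ∀ s ∈ Set.Ico 0 b, HasDerivWithinAt
        (fun s => Real.exp (2 * s) * u s x - psum ξ u₀ (n + 1) s x)
        (2 * T ξ Set.univ (fun y => Real.exp (2 * s) * u s y - psum ξ u₀ n s y) x)
        (Set.Ici s) s := by
      intro s hs
      have h1 := (hasDerivWithinAt_w h hs.1 x).mono
        (fun r hr => le_trans hs.1 hr : Set.Ici s ⊆ Set.Ici 0)
      have h2 := (hasDerivAt_psum (ξ := ξ) (u₀ := u₀) n s x).hasDerivWithinAt (s := Set.Ici s)
      have h3 := h1.sub h2
      refine h3.congr_deriv ?_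
      have : (fun y => Real.exp (2 * s) * u s y - psum ξ u₀ n s y) =
          (fun y => Real.exp (2 * s) * u s y) - psum ξ u₀ n s := rfl
      rw [this, map_sub]
      simp only [Pi.sub_apply]
      ring
    have hB : ∀ s : ℝ, HasDerivAt
        (fun s : ℝ => M * ((2 + E) * s) ^ (n + 1) / ((n + 1).factorial : ℝ))
        ((2 + E) * (M * ((2 + E) * s) ^ n / (n.factorial : ℝ))) s := by
      intro s
      have h3 : HasDerivAt (fun s : ℝ => ((2 + E) * s) ^ (n + 1))
          (((n + 1 : ℕ) : ℝ) * ((2 + E) * s) ^ n * (2 + E)) s := by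
        have h0 : HasDerivAt (fun s : ℝ => (2 + E) * s) (2 + E) s := by
          simpa using (hasDerivAt_id s).const_mul (2 + E)
        have := h0.pow (n + 1)
        exact this.congr_deriv (by simp)
      have h4 := (h3.const_mul M).div_const ((n + 1).factorial : ℝ)
      refine h4.congr_deriv ?_
      rw [Nat.factorial_succ]
      push_cast
      have : (n.factorial : ℝ) ≠ 0 := by positivity
      have : ((n : ℝ) + 1) ≠ 0 := by positivity
      field_simp
    have hbound : ∀ s ∈ Set.Ico 0 b,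
        ‖2 * T ξ Set.univ (fun y => Real.exp (2 * s) * u s y - psum ξ u₀ n s y) x‖ ≤
          (2 + E) * (M * ((2 + E) * s) ^ n / (n.factorial : ℝ)) := by
      intro s hs
      rw [Real.norm_eq_abs]
      exact abs_T_le hE (fun y => ih s hs.1 hs.2.le y) x
    have hinit : ‖Real.exp (2 * 0) * u 0 x - psum ξ u₀ (n + 1) 0 x‖ ≤
        M * ((2 + E) * 0) ^ (n + 1) / ((n + 1).factorial : ℝ) := by
      rw [psum_zero_time, h.init x]
      simp
    have := image_norm_le_of_norm_deriv_right_le_deriv_boundary hcont hder hinit hB hbound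
      (Set.mem_Icc.mpr ⟨ht, htb⟩)
    simpa [Real.norm_eq_abs] using this

lemma tendsto_psum (h : IsPAMSolution ξ u₀ u) {E : ℝ} (hE : ∀ x, |ξ x| ≤ E) {t : ℝ} (ht : 0 ≤ t)
    (x : ℤ) : Filter.Tendsto (fun n => psum ξ u₀ n t x) Filter.atTop
      (nhds (Real.exp (2 * t) * u t x)) := by
  obtain ⟨M, hM⟩ := h.bounded t
  have hM' : ∀ s, 0 ≤ s → s ≤ t → ∀ y, |Real.exp (2 * s) * u s y| ≤ Real.exp (2 * t) * M := by
    intro s hs hst y
    rw [abs_mul, abs_of_pos (Real.exp_pos _)]
    exact mul_le_mul (Real.exp_le_exp.mpr (by linarith)) (hM s hs hst y) (abs_nonneg _)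
      (Real.exp_pos _).le
  have h1 := fun n => error_bound h hE hM' n t ht le_rfl x
  rw [tendsto_iff_norm_sub_tendsto_zero]
  have h2 : Filter.Tendsto (fun n : ℕ => Real.exp (2 * t) * M * (((2 + E) * t) ^ n /
      (n.factorial : ℝ))) Filter.atTop (nhds 0) := by
    have := (FloorSemiring.tendsto_pow_div_factorial_atTop ((2 + E) * t)).const_mul
      (Real.exp (2 * t) * M)
    simpa using this
  refine squeeze_zero (fun n => norm_nonneg _) (fun n => ?_) h2
  rw [Real.norm_eq_abs, abs_sub_comm, ← mul_div_assoc]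
  exact h1 n

/-- Deterministic core. -/
theorem deterministic {ε E C : ℝ} (hε : 0 < ε) (hξ : ∀ x, ε ≤ ξ x ∧ ξ x ≤ E)
    (hu₀ : ∀ x, 0 ≤ u₀ x ∧ u₀ x ≤ C) {p : ℤ} (hp : 0 < u₀ p) (h : IsPAMSolution ξ u₀ u) (x : ℤ) :
    ∃ T₀ : ℝ, StrictMonoOn (fun t => u t x) (Set.Ici T₀) := by
  have hE : ∀ x, |ξ x| ≤ E := fun x => by
    rw [abs_of_pos (hε.trans_le (hξ x).1)]; exact (hξ x).2
  set v : ℕ → ℝ := fun n => (T ξ Set.univ ^ n) u₀ x with hv
  obtain ⟨N, hN⟩ := discrete_mono hε (fun x => (hξ x).1) x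
  have hmono : ∀ n, N ≤ n → v n ≤ v (n + 1) := fun n hn => hN n hn u₀ (fun x => (hu₀ x).1)
  have hm : ∃ m, N ≤ m ∧ 0 < v (m + 1) - v m := by
    by_contra hcon
    push Not at hcon
    have h1 : ∀ n, v n ≤ ∑ k ∈ range (N + 1), |v k| := by
      intro n
      rcases Nat.lt_or_ge n (N + 1) with hn | hn
      · calc v n ≤ |v n| := le_abs_self _
          _ ≤ _ := Finset.single_le_sum (f := fun k => |v k|) (fun _ _ => abs_nonneg _)
            (mem_range.mpr hn)
      · have h2 : v n ≤ v N := by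
          have hn' : N ≤ n := by omega
          clear hn
          induction n, hn' using Nat.le_induction with
          | base => exact le_rfl
          | succ n hn ih => exact le_trans (by linarith [hcon n hn]) ih
        calc v n ≤ v N := h2
          _ ≤ |v N| := le_abs_self _
          _ ≤ _ := Finset.single_le_sum (f := fun k => |v k|) (fun _ _ => abs_nonneg _)
            (mem_range.mpr (Nat.lt_succ_self N))
    obtain ⟨n, hn⟩ := discrete_unbounded hε (fun x => (hξ x).1) x p (fun x => (hu₀ x).1) hp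
      (∑ k ∈ range (N + 1), |v k|)
    exact absurd (h1 n) (not_le.mpr hn)
  obtain ⟨m, hNm, hdm⟩ := hm
  set d : ℕ → ℝ := fun k => v (k + 1) - v k with hd
  set D : ℝ := ∑ k ∈ range N, |d k| with hD
  have hD0 : 0 ≤ D := Finset.sum_nonneg fun _ _ => abs_nonneg _
  set c : ℝ := d m / (2 * (m.factorial : ℝ)) with hc
  have hc0 : 0 < c := by
    have : (0 : ℝ) < m.factorial := by positivity
    have : 0 < d m := hdm
    positivity
  set T₀ : ℝ := max 1 (D / c) with hT₀
  have hT₀1 : 1 ≤ T₀ := le_max_left _ _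
  -- positivity of the derivative
  have hpos : ∀ t, T₀ ≤ t → 0 < lap (u t) x + ξ x * u t x := by
    intro t ht
    have ht1 : 1 ≤ t := hT₀1.trans ht
    have ht0 : 0 ≤ t := by linarith
    set s : ℝ := 2 * t with hs
    have hs1 : 1 ≤ s := by rw [hs]; linarith
    have hs0 : 0 < s := by linarith
    have hDs : D ≤ c * s := by
      have : D / c ≤ t := (le_max_right _ _).trans ht
      rw [div_le_iff₀ hc0] at this
      nlinarith
    have hlim : Filter.Tendsto (fun n => T ξ Set.univ (psum ξ u₀ n t) x - psum ξ u₀ n t x)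
        Filter.atTop (nhds (T ξ Set.univ (fun y => Real.exp (2 * t) * u t y) x -
          Real.exp (2 * t) * u t x)) := by
      apply Filter.Tendsto.sub
      · simp only [T_univ]
        exact (((tendsto_psum h hE ht0 x).const_mul _).add
          (((tendsto_psum h hE ht0 (x + 1)).add (tendsto_psum h hE ht0 (x - 1))).const_mul _))
      · exact tendsto_psum h hE ht0 x
    have hlow : ∀ n, m + 1 ≤ n → s ^ m * c ≤
        T ξ Set.univ (psum ξ u₀ n t) x - psum ξ u₀ n t x := by
      intro n hn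
      rw [T_psum]
      unfold psum
      rw [← Finset.sum_sub_distrib]
      have h1 : ∀ k, (2 * t) ^ k / (k.factorial : ℝ) * (T ξ Set.univ ^ (k + 1)) u₀ x -
          (2 * t) ^ k / (k.factorial : ℝ) * (T ξ Set.univ ^ k) u₀ x =
          s ^ k / (k.factorial : ℝ) * d k := by
        intro k
        simp only [hd, hv]
        ring
      simp only [h1]
      have hN1 : N ≤ n := by omega
      rw [← Finset.sum_range_add_sum_Ico _ hN1]
      have h2 : s ^ m / (m.factorial : ℝ) * d m ≤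
          ∑ k ∈ Ico N n, s ^ k / (k.factorial : ℝ) * d k := by
        apply Finset.single_le_sum (f := fun k => s ^ k / (k.factorial : ℝ) * d k)
        · intro k hk
          have hk1 := (mem_Ico.mp hk).1
          have : 0 ≤ d k := by simp only [hd]; linarith [hmono k hk1]
          positivity
        · exact mem_Ico.mpr ⟨hNm, by omega⟩
      have h3 : -(s ^ m * c) ≤ ∑ k ∈ range N, s ^ k / (k.factorial : ℝ) * d k := by
        have h4 : ∀ k ∈ range N, -(s ^ m / s * |d k|) ≤ s ^ k / (k.factorial : ℝ) * d k := by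
          intro k hk
          have hk1 := mem_range.mp hk
          have h5 : s ^ k / (k.factorial : ℝ) ≤ s ^ m / s := by
            have h6 : (1 : ℝ) ≤ (k.factorial : ℝ) := by
              exact_mod_cast Nat.succ_le_of_lt (Nat.factorial_pos k)
            calc s ^ k / (k.factorial : ℝ) ≤ s ^ k := div_le_self (by positivity) h6
              _ ≤ s ^ (m - 1) := pow_le_pow_right₀ hs1 (by omega)
              _ = s ^ m / s := by
                  rw [eq_div_iff hs0.ne', ← pow_succ]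
                  congr 1
                  omega
          have h7 : |s ^ k / (k.factorial : ℝ) * d k| ≤ s ^ m / s * |d k| := by
            rw [abs_mul, abs_of_nonneg (by positivity : 0 ≤ s ^ k / (k.factorial : ℝ))]
            exact mul_le_mul_of_nonneg_right h5 (abs_nonneg _)
          linarith [neg_abs_le (s ^ k / (k.factorial : ℝ) * d k)]
        have h8 := Finset.sum_le_sum h4
        rw [Finset.sum_neg_distrib, ← Finset.mul_sum, ← hD] at h8
        have h9 : s ^ m / s * D ≤ s ^ m * c := by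
          calc s ^ m / s * D ≤ s ^ m / s * (c * s) :=
                mul_le_mul_of_nonneg_left hDs (by positivity)
            _ = s ^ m * c := by field_simp
        linarith
      have h10 : s ^ m / (m.factorial : ℝ) * d m = 2 * (s ^ m * c) := by
        rw [hc]
        have : (m.factorial : ℝ) ≠ 0 := by positivity
        field_simp
      rw [h10] at h2
      linarith
    have hge : s ^ m * c ≤ T ξ Set.univ (fun y => Real.exp (2 * t) * u t y) x -
          Real.exp (2 * t) * u t x :=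
      ge_of_tendsto hlim (Filter.eventually_atTop.mpr ⟨m + 1, hlow⟩)
    have hpos' : 0 < s ^ m * c := by positivity
    have e1 : T ξ Set.univ (fun y => Real.exp (2 * t) * u t y) x - Real.exp (2 * t) * u t x =
        Real.exp (2 * t) / 2 * (lap (u t) x + ξ x * u t x) := by
      rw [T_univ, lap]; ring
    rw [e1] at hge
    have h11 : 0 < Real.exp (2 * t) / 2 := by positivity
    by_contra hneg
    push Not at hneg
    nlinarith
  refine ⟨T₀, ?_⟩
  apply strictMonoOn_of_deriv_pos (convex_Ici T₀)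
  · intro t ht
    have ht0 : 0 ≤ t := by linarith [Set.mem_Ici.mp ht]
    exact ((h.deriv t ht0 x).continuousWithinAt).mono
      (fun r hr => by have := Set.mem_Ici.mp hr; exact Set.mem_Ici.mpr (by linarith))
  · intro t ht
    rw [interior_Ici] at ht
    have ht1 : T₀ < t := ht
    have ht0 : 0 < t := by linarith
    have h1 := (h.deriv t ht0.le x).hasDerivAt (Ici_mem_nhds ht0)
    rw [h1.deriv]
    exact hpos t ht1.le

end series

section existence

open BoundedContinuousFunction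

/-- The generator as a bounded operator on bounded functions. -/
lemma exists_generator {ξ : ℤ → ℝ} {E : ℝ} (hE : ∀ x, |ξ x| ≤ E) :
    ∃ A : (ℤ →ᵇ ℝ) →L[ℝ] (ℤ →ᵇ ℝ), ∀ f x, A f x = lap f x + ξ x * f x := by
  have hE0 : 0 ≤ E := (abs_nonneg _).trans (hE 0)
  have hbound : ∀ (f : ℤ →ᵇ ℝ) (x : ℤ), ‖lap f x + ξ x * f x‖ ≤ (2 + E) * ‖f‖ := by
    intro f x
    have h0 := f.norm_coe_le_norm x
    have h1 := f.norm_coe_le_norm (x + 1)
    have h2 := f.norm_coe_le_norm (x - 1)
    rw [Real.norm_eq_abs] at *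
    have h3 : |ξ x * f x| ≤ E * ‖f‖ := by
      rw [abs_mul]
      exact mul_le_mul (hE x) h0 (abs_nonneg _) hE0
    unfold lap
    rw [abs_le] at *
    constructor <;> nlinarith [h0.1, h0.2, h1.1, h1.2, h2.1, h2.2, h3.1, h3.2]
  let A₀ : (ℤ →ᵇ ℝ) →ₗ[ℝ] (ℤ →ᵇ ℝ) :=
    { toFun := fun f => ofNormedAddCommGroup (fun x => lap f x + ξ x * f x)
        continuous_of_discreteTopology ((2 + E) * ‖f‖) (hbound f)
      map_add' := by
        intro f g
        ext x
        simp only [lap, BoundedContinuousFunction.coe_ofNormedAddCommGroup,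
          BoundedContinuousFunction.coe_add, Pi.add_apply]
        ring
      map_smul' := by
        intro c f
        ext x
        simp only [lap, BoundedContinuousFunction.coe_ofNormedAddCommGroup,
          BoundedContinuousFunction.coe_smul, smul_eq_mul, RingHom.id_apply]
        ring }
  refine ⟨A₀.mkContinuous (2 + E) ?_, fun f x => rfl⟩
  intro f
  exact norm_ofNormedAddCommGroup_le _ (by positivity) (hbound f)

lemma exists_flow {F : Type*} [NormedAddCommGroup F] [NormedSpace ℝ F] [CompleteSpace F]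
    (A : F →L[ℝ] F) (f₀ : F) : ∃ U : ℝ → F, U 0 = f₀ ∧ ∀ t, HasDerivAt U (A (U t)) t := by
  refine ⟨fun t => NormedSpace.exp (t • A) f₀, by simp, fun t => ?_⟩
  have h1 := hasDerivAt_exp_smul_const' (𝕂 := ℝ) A t
  have h2 := h1.clm_apply (hasDerivAt_const t f₀)
  refine h2.congr_deriv ?_
  simp

theorem exists_solution {ξ u₀ : ℤ → ℝ} {E C : ℝ} (hE : ∀ x, |ξ x| ≤ E) (hC : ∀ x, |u₀ x| ≤ C) :
    ∃ u, IsPAMSolution ξ u₀ u := by
  obtain ⟨A, hA⟩ := exists_generator hE
  let f₀ : ℤ →ᵇ ℝ := ofNormedAddCommGroup u₀ continuous_of_discreteTopology C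
    (fun x => by rw [Real.norm_eq_abs]; exact hC x)
  obtain ⟨U, hU0, hderiv⟩ := exists_flow A f₀
  refine ⟨fun t x => U t x, ?_, ?_, ?_⟩
  · intro x
    show U 0 x = u₀ x
    rw [hU0]
    rfl
  · intro t _ x
    have h1 := (evalCLM ℝ x : (ℤ →ᵇ ℝ) →L[ℝ] ℝ).hasFDerivAt.comp_hasDerivAt t (hderiv t)
    have h2 : HasDerivAt (fun s => U s x) (A (U t) x) t := h1
    rw [hA] at h2
    exact h2.hasDerivWithinAt
  · intro b
    have hcont : Continuous (fun s : ℝ => ‖U s‖) := by
      have : Continuous U := continuous_iff_continuousAt.mpr fun t => (hderiv t).continuousAt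
      exact this.norm
    obtain ⟨M, hM⟩ := (isCompact_Icc (a := (0 : ℝ)) (b := b)).bddAbove_image hcont.continuousOn
    refine ⟨M, fun t ht htb x => ?_⟩
    have h1 : ‖U t‖ ≤ M := hM ⟨t, ⟨ht, htb⟩, rfl⟩
    have h2 := (U t).norm_coe_le_norm x
    rw [Real.norm_eq_abs] at h2
    exact h2.trans h1

end existence

/-- **Main result.**  Let `ξ(x)`, `x ∈ ℤ`, be real random variables with `a ≤ ξ(x) ≤ b` almost surely
for constants `0 < a`, `b`, and let `u₀` be bounded, nonnegative and not identically zero.  Then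
almost surely the parabolic Anderson model `∂ₜ u = Δ u + ξ u`, `u(0,·) = u₀` has a solution bounded
on compact time intervals, and for every such solution `u` and every site `x` there is `T` such
that `t ↦ u(t,x)` is strictly increasing on `[T,∞)`. -/
theorem result {Ω : Type} [MeasurableSpace Ω] (P : Measure Ω) [IsProbabilityMeasure P]
    (ξ : ℤ → Ω → ℝ) (a b : ℝ) (ha : 0 < a) (hξ : ∀ x, ∀ᵐ ω ∂P, a ≤ ξ x ω ∧ ξ x ω ≤ b)
    (u₀ : ℤ → ℝ) (C : ℝ) (hu₀ : ∀ x, 0 ≤ u₀ x ∧ u₀ x ≤ C) (hpos : ∃ p, 0 < u₀ p) :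
    ∀ᵐ ω ∂P, (∃ u, IsPAMSolution (fun x => ξ x ω) u₀ u) ∧
      ∀ u, IsPAMSolution (fun x => ξ x ω) u₀ u →
        ∀ x, ∃ T : ℝ, StrictMonoOn (fun t => u t x) (Set.Ici T) := by
  have hall : ∀ᵐ ω ∂P, ∀ x, a ≤ ξ x ω ∧ ξ x ω ≤ b := ae_all_iff.mpr hξ
  obtain ⟨p, hp⟩ := hpos
  filter_upwards [hall] with ω hω
  refine ⟨exists_solution (E := b) (C := C) (fun x => ?_) (fun x => ?_), fun u hu x => ?_⟩
  · rw [abs_of_pos (ha.trans_le (hω x).1)]; exact (hω x).2
  · rw [abs_of_nonneg (hu₀ x).1]; exact (hu₀ x).2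
  · exact deterministic ha hω hu₀ hp hu x

end Pool.Agent.Results.MP_360c0a_pr.EventuallyIncreasing
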